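import Mathlib
import Pool.Agent.TH442.NM.Main

set_option autoImplicit false

/-!
# Prime divisors with nearly equal multiplicities at `n ≥ 10` very general points

Let `P 1, …, P s` be very general points of the complex projective plane, `T` a set of `n ≥ 10` of
them, `C` a plane curve of degree `d` with multiplicities at least `μ i`, `S = ∑_{i ∈ T} μ i > 0` and
`V = ∑_{i ∈ T} (μ i - S / n) ^ 2 + ∑_{i ∉ T} μ i ^ 2`. Then `C ^ 2 > - V`; in particular `C ^ 2 ≥ 0` if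
`V ≤ 1` and `C ^ 2 ≥ -1` if `V ≤ 2`. If `n ≥ 18` and `S` is large, then
`C ^ 2 > (1 - 11 / (3 √n) - 9 / (4 n)) S - V`; if `n ≥ 20` and all `μ i` are `m` or `m + 1` on `T` and
`0` off `T`, then `C ^ 2 ≥ 1`.
-/

namespace Pool.Agent.Results.MP_3c83d0_ag.NearMeanMultiplicities

open MvPolynomial

/-- The homogeneous ideal of the point `(p 0 : p 1 : 1)`. -/
noncomputable def ptIdeal (p : Fin 2 → ℂ) : Ideal (MvPolynomial (Fin 3) ℂ) :=
  Ideal.span ({X 0 - C (p 0) * X 2, X 1 - C (p 1) * X 2} : Set (MvPolynomial (Fin 3) ℂ))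

/-- The self-intersection of the class `(d; μ)`. -/
def selfInt {s : ℕ} (d : ℕ) (μ : Fin s → ℕ) : ℤ := (d : ℤ) ^ 2 - ∑ i, (μ i : ℤ) ^ 2

/-- The sum of the multiplicities at the points of `T`. -/
def sumOn {s : ℕ} (T : Finset (Fin s)) (μ : Fin s → ℕ) : ℕ := ∑ i ∈ T, μ i

/-- `n` times the variance of the multiplicities at the `n` points of `T`, plus the squares of the
other multiplicities. -/
noncomputable def spread {s : ℕ} (T : Finset (Fin s)) (μ : Fin s → ℕ) : ℝ :=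
  ∑ i ∈ T, ((μ i : ℝ) - (sumOn T μ : ℝ) / T.card) ^ 2 + ∑ i ∈ Tᶜ, (μ i : ℝ) ^ 2

theorem result (s : ℕ) : ∃ G : ℕ → MvPolynomial (Fin s × Fin 2) ℂ, (∀ j, G j ≠ 0) ∧
    ∀ P : Fin s → Fin 2 → ℂ,
      (∀ j, MvPolynomial.eval (fun ij : Fin s × Fin 2 => P ij.1 ij.2) (G j) ≠ 0) →
      ∀ (d : ℕ) (μ : Fin s → ℕ) (F : MvPolynomial (Fin 3) ℂ), F ≠ 0 →
        F.IsHomogeneous d → (∀ i, F ∈ ptIdeal (P i) ^ (μ i)) →
        ∀ (n : ℕ) (T : Finset (Fin s)), T.card = n → 10 ≤ n → 0 < sumOn T μ →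
          - spread T μ < (selfInt d μ : ℝ) ∧
          (spread T μ ≤ 1 → 0 ≤ selfInt d μ) ∧
          (spread T μ ≤ 2 → -1 ≤ selfInt d μ) ∧
          (18 ≤ n → (n : ℝ) * ((n : ℝ) / 2 - 11 / 6 * √(n : ℝ) + 2) ≤ (sumOn T μ : ℝ) →
            (1 - 11 / (3 * √(n : ℝ)) - 9 / (4 * (n : ℝ))) * (sumOn T μ : ℝ) - spread T μ <
              (selfInt d μ : ℝ)) ∧
          (20 ≤ n → (∃ m : ℕ, 1 ≤ m ∧ ∀ i ∈ T, μ i = m ∨ μ i = m + 1) → (∀ i ∉ T, μ i = 0) →
            1 ≤ selfInt d μ) := by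
  obtain ⟨G, hG, hG'⟩ := Pool.Agent.TH603.Cut.exists_family (Fin s × Fin 2)
  refine ⟨G, hG, fun P hP d μ F hF hFd hmu n T hTn hn hS => ?_⟩
  subst hTn
  have hspr : spread T μ = Pool.Agent.TH442.NM.spr T μ := by
    unfold spread sumOn Pool.Agent.TH442.NM.spr
    push_cast
    rfl
  have hself : (selfInt d μ : ℝ) = (d : ℝ) ^ 2 - ∑ i, (μ i : ℝ) ^ 2 := by
    unfold selfInt
    push_cast
    rfl
  have hsum : (sumOn T μ : ℝ) = ∑ i ∈ T, (μ i : ℝ) := by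
    unfold sumOn
    push_cast
    rfl
  have h0 : - spread T μ < (selfInt d μ : ℝ) := by
    have h1 := (Pool.Agent.TH142.NU.main (hG' _ hP) hF hFd hmu T hn).1 (by
      rw [← hsum]; exact_mod_cast hS)
    rw [hspr, hself]
    unfold Pool.Agent.TH442.NM.spr
    linarith
  refine ⟨h0, fun h => ?_, fun h => ?_, fun h18 hb => ?_, fun h20 hm h0' => ?_⟩
  · have h1 : (-1 : ℝ) < (selfInt d μ : ℝ) := by linarith
    have h2 : (-1 : ℤ) < selfInt d μ := by exact_mod_cast h1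
    omega
  · have h1 : (-2 : ℝ) < (selfInt d μ : ℝ) := by linarith
    have h2 : (-2 : ℤ) < selfInt d μ := by exact_mod_cast h1
    omega
  · rw [hsum] at hb ⊢
    rw [hspr, hself]
    exact Pool.Agent.TH442.NM.window (hG' _ hP) hF hFd hmu T h18 hb
  · obtain ⟨m, hm1, hmm⟩ := hm
    have h1 := Pool.Agent.TH442.NM.near_T (hG' _ hP) hF hFd hmu T h20 hm1 hmm
    have h2 : ∑ i, (μ i) ^ 2 = ∑ i ∈ T, (μ i) ^ 2 := by
      symm
      apply Finset.sum_subset (Finset.subset_univ T)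
      intro i _ hi
      rw [h0' i hi]
      rfl
    rw [← h2] at h1
    unfold selfInt
    have h3 : ((∑ i, (μ i) ^ 2 : ℕ) : ℤ) < ((d ^ 2 : ℕ) : ℤ) := by exact_mod_cast h1
    push_cast at h3
    omega

end Pool.Agent.Results.MP_3c83d0_ag.NearMeanMultiplicities
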