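import Mathlib
import Pool.Agent.TH718.UG2.Family

set_option autoImplicit false

/-!
# Near-uniform curves on the blow-up of the plane at `n ≥ 10` very general points

Let `P_1, …, P_r` be very general points of the complex projective plane, `T` a set of at least ten of them
and `k ≥ 1`. A plane curve of degree `d ≥ 1` with multiplicity at least `μ_i` at `P_i`, `μ_i ∈ {k, k + 1}`
for `i ∈ T`, has `d² - ∑_{i ∈ T} μ_i² ≥ 1`, but for the two classes `(4; 2², 1⁸)` and `(5; 2⁵, 1⁵)` of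
self-intersection zero at ten points.
-/

namespace Pool.Agent.Results.MP_3c83d0_ag.NearUniformAllN

open MvPolynomial

/-- The ideal of the point `(p 0 : p 1 : 1)`. -/
noncomputable def ptIdeal (p : Fin 2 → ℂ) : Ideal (MvPolynomial (Fin 3) ℂ) :=
  Ideal.span {X 0 - C (p 0) * X 2, X 1 - C (p 1) * X 2}

/-- The self-intersection of the class `(d; μ)`. -/
def selfInt {r : ℕ} (d : ℕ) (μ : Fin r → ℕ) : ℤ := (d : ℤ) ^ 2 - ∑ i, (μ i : ℤ) ^ 2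

theorem result (r : ℕ) : ∃ F : ℕ → MvPolynomial (Fin r × Fin 2) ℂ, (∀ j, F j ≠ 0) ∧
    ∀ P : Fin r → Fin 2 → ℂ, (∀ j, eval (fun q : Fin r × Fin 2 => P q.1 q.2) (F j) ≠ 0) →
      ∀ (d : ℕ) (μ : Fin r → ℕ) (G : MvPolynomial (Fin 3) ℂ), 0 < d → G ≠ 0 → G.IsHomogeneous d →
        (∀ i, G ∈ ptIdeal (P i) ^ μ i) →
        ∀ (T : Finset (Fin r)) (k : ℕ), 10 ≤ T.card → 1 ≤ k → (∀ i ∈ T, μ i = k ∨ μ i = k + 1) →
          1 - ∑ i ∈ Tᶜ, (μ i : ℤ) ^ 2 ≤ selfInt d μ ∨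
          (T.card = 10 ∧ k = 1 ∧ (d = 4 ∨ d = 5) ∧ selfInt d μ = - ∑ i ∈ Tᶜ, (μ i : ℤ) ^ 2) := by
  classical
  obtain ⟨F, hF, hF'⟩ := TH718.UG2.exists_family r
  refine ⟨F, hF, fun P hP d μ G hd hG hGd hGm T k hT hk hμ => ?_⟩
  by_contra hcon
  rw [not_or] at hcon
  obtain ⟨h1, h2⟩ := hcon
  have e1 : ∑ i, (μ i : ℤ) ^ 2 = ∑ i ∈ T, (μ i : ℤ) ^ 2 + ∑ i ∈ Tᶜ, (μ i : ℤ) ^ 2 :=
    (Finset.sum_add_sum_compl T _).symm
  have e2 : ((∑ i ∈ T, μ i ^ 2 : ℕ) : ℤ) = ∑ i ∈ T, (μ i : ℤ) ^ 2 := by push_cast; rfl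
  unfold selfInt at h1 h2
  rw [e1, ← e2] at h1 h2
  have h3 : ((d ^ 2 : ℕ) : ℤ) ≤ ((∑ i ∈ T, μ i ^ 2 : ℕ) : ℤ) := by
    push_cast at h1 ⊢
    linarith
  have h4 : d ^ 2 ≤ ∑ i ∈ T, μ i ^ 2 := by exact_mod_cast h3
  have hyp : TH718.UG2.Hyp d μ T := by
    right
    refine ⟨k, hk, hμ, h4, ?_⟩
    rintro ⟨g1, g2, g3, g4⟩
    apply h2
    refine ⟨g1, g2, g3, ?_⟩
    have g5 : ((∑ i ∈ T, μ i ^ 2 : ℕ) : ℤ) = (d : ℤ) ^ 2 := by rw [g4]; push_cast; rfl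
    rw [g5]; ring
  have h0 := hF' P hP d μ T hd hT hyp
  apply hG
  have hmem : G ∈ TH718.UG2.forms P d μ := by
    unfold TH718.UG2.forms
    refine ⟨(mem_homogeneousSubmodule _ _).2 hGd, ?_⟩
    rw [SetLike.mem_coe, Submodule.restrictScalars_mem, Ideal.mem_iInf]
    exact fun i => hGm i
  rw [h0] at hmem
  exact (Submodule.mem_bot ℂ).1 hmem

end Pool.Agent.Results.MP_3c83d0_ag.NearUniformAllN
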